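import Pool.Agent.HP25.FD.B
import Pool.Agent.HP25.NI.E

set_option autoImplicit false

/-! Goldbach pairs for all even integers near the multiples of almost all points of measures whose Fourier transforms decay
polynomially. -/

namespace Pool.Agent.HP25.FD
open Finset MeasureTheory Filter Topology
open Pool.Agent.H807R2.Dav
open Pool.Agent.TH935.GF (En)
open Pool.Agent.HP25.OS (Mo)

open Classical in
/-- the measure of a set and the number of the members of the family in the cells which meet it -/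
lemma bad_cells (ν : Measure ℝ) [IsProbabilityMeasure ν] (T D n : ℕ) (ψ : ℕ → ℕ) (hν : ν (Set.Icc (0 : ℝ) T)ᶜ = 0)
    (hD : 1 ≤ D) (hψ : ∀ j < n, ψ j < T * D + 1)
    (hcell : ∀ c < T * D + 1, ν.real (cell D c) * n ≤ 2 * ((range n).filter (fun j => ψ j = c)).card) (B : Set ℝ) :
    ν.real B * n ≤ 2 * ((range n).filter (fun j => ∃ x ∈ B, x ∈ cell D (ψ j))).card := by
  obtain ⟨I, hI⟩ : ∃ I : Finset ℕ, I = (range (T * D + 1)).filter (fun c => ∃ x ∈ B, x ∈ cell D c) := ⟨_, rfl⟩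
  have h1 : ν.real B ≤ ∑ c ∈ I, ν.real (cell D c) := by
    have h2 : B ⊆ (⋃ c ∈ I, cell D c) ∪ (⋃ c ∈ range (T * D + 1), cell D c)ᶜ := by
      intro x hx
      by_cases h : x ∈ ⋃ c ∈ range (T * D + 1), cell D c
      · left
        rw [Set.mem_iUnion₂] at h ⊢
        obtain ⟨c, hc, hxc⟩ := h
        refine ⟨c, ?_, hxc⟩
        rw [hI, mem_filter]
        exact ⟨hc, x, hx, hxc⟩
      · right
        exact h
    have h3 : ν B ≤ ∑ c ∈ I, ν (cell D c) := by
      calc ν B ≤ ν ((⋃ c ∈ I, cell D c) ∪ (⋃ c ∈ range (T * D + 1), cell D c)ᶜ) := measure_mono h2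
        _ ≤ ν (⋃ c ∈ I, cell D c) + ν (⋃ c ∈ range (T * D + 1), cell D c)ᶜ := measure_union_le _ _
        _ = ν (⋃ c ∈ I, cell D c) := by rw [union_null ν T D hD hν, add_zero]
        _ ≤ _ := measure_biUnion_finset_le _ _
    have h4 := ENNReal.toReal_mono (by
      apply ne_of_lt
      apply ENNReal.sum_lt_top.2
      intro c _
      exact measure_lt_top _ _) h3
    rw [ENNReal.toReal_sum (fun c _ => (measure_lt_top _ _).ne)] at h4
    exact h4
  have hn0 : (0 : ℝ) ≤ n := Nat.cast_nonneg _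
  calc ν.real B * n ≤ (∑ c ∈ I, ν.real (cell D c)) * n := mul_le_mul_of_nonneg_right h1 hn0
    _ = ∑ c ∈ I, ν.real (cell D c) * n := by rw [sum_mul]
    _ ≤ ∑ c ∈ I, 2 * (((range n).filter (fun j => ψ j = c)).card : ℝ) := by
        apply sum_le_sum
        intro c hc
        rw [hI, mem_filter, mem_range] at hc
        exact hcell c hc.1
    _ = 2 * ((∑ c ∈ I, ((range n).filter (fun j => ψ j = c)).card : ℕ) : ℝ) := by
        rw [← mul_sum]
        push_cast
        rfl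
    _ = _ := by
        congr 2
        rw [card_eq_sum_card_fiberwise (f := ψ) (s := (range n).filter (fun j => ∃ x ∈ B, x ∈ cell D (ψ j))) (t := I)]
        · apply sum_congr rfl
          intro c hc
          congr 1
          rw [hI, mem_filter] at hc
          ext j
          simp only [mem_filter, mem_range]
          constructor
          · rintro ⟨a, b⟩
            refine ⟨⟨a, ?_⟩, b⟩
            rw [b]
            exact hc.2
          · rintro ⟨⟨a, _⟩, b⟩
            exact ⟨a, b⟩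
        · intro j hj
          rw [mem_coe, mem_filter, mem_range] at hj
          rw [mem_coe, hI, mem_filter, mem_range]
          exact ⟨hψ j hj.1, hj.2⟩

lemma cell_close (D c : ℕ) (x lam : ℝ) (hlam : 0 ≤ lam) (hD : lam / (D : ℝ) ≤ 1) (hx : x ∈ cell D c) :
    |lam * x - lam * ((c : ℝ) / D)| ≤ 1 := by
  have h1 := hx.1
  have h2 := hx.2
  rw [add_div] at h2
  have h3 : lam * (1 / (D : ℝ)) ≤ 1 := by
    rw [mul_one_div]
    exact hD
  rw [← mul_sub, abs_mul, abs_of_nonneg hlam, abs_of_nonneg (by linarith)]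
  refine le_trans (mul_le_mul_of_nonneg_left ?_ hlam) h3
  linarith

/-- **All the even integers near the multiples of almost all points** -/
theorem gold_decay (A W U m₀ T : ℕ) (C δ ε : ℝ) (hδ : 0 < δ) (hε : 0 < ε) (Q : ℕ → Prop)
    (hQ : ∀ m : ℕ, m₀ ≤ m → 2 ∣ m → Pool.Agent.W93.PG.WinP ε A m → Q m) :
    ∃ N₀ : ℕ, ∀ lam : ℝ, (N₀ : ℝ) ≤ lam → ∀ (ν : Measure ℝ) [IsProbabilityMeasure ν], ν (Set.Icc (0 : ℝ) T)ᶜ = 0 →
      Decay ν C δ →
      ν.real {x | ∃ m : ℕ, 0 < m ∧ Even m ∧ |(m : ℝ) - lam * x| ≤ Real.log lam ^ W ∧ ¬ Q m} ≤ 1 / Real.log lam ^ U := by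
  classical
  obtain ⟨q, C₀, hq, hC₀, hmo⟩ := mo_decay C δ hδ
  obtain ⟨N₀, hnear⟩ := Pool.Agent.R459.near_even q A (2 * T) 1 (2 * W + 1) (2 * U + 1) m₀ hq ε hε Q hQ
  obtain ⟨N₁, hN₁⟩ := exists_nat_ge (Real.exp (8 * C₀ + 3))
  refine ⟨N₀ + N₁ + 2, fun lam hlam ν _ hν hdec => ?_⟩
  have hlam1 : 1 ≤ lam := le_trans (by exact_mod_cast (by omega : 1 ≤ N₀ + N₁ + 2)) hlam
  obtain ⟨n, D, ψ, hn, hD, hDl, hψ, hcell, hMo⟩ := hmo T ν hν hdec lam hlam1
  obtain ⟨Y, hY⟩ : ∃ Y, Y = ⌊lam⌋₊ := ⟨_, rfl⟩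
  rw [← hY] at hMo
  have hYN : N₀ + N₁ + 2 ≤ Y := by rw [hY]; exact Nat.le_floor hlam
  have hYle : (Y : ℝ) ≤ lam := by rw [hY]; exact Nat.floor_le (by linarith)
  have hYlt : lam < Y + 1 := by rw [hY]; exact Nat.lt_floor_add_one _
  have hY2 : (2 : ℝ) ≤ Y := by exact_mod_cast (by omega : 2 ≤ Y)
  obtain ⟨L, hL⟩ : ∃ L, L = Real.log Y := ⟨_, rfl⟩
  have hLbig : 8 * C₀ + 3 ≤ L := by
    rw [hL, Real.le_log_iff_exp_le (by linarith)]
    exact hN₁.trans (by exact_mod_cast (by omega : N₁ ≤ Y))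
  have hL3 : 3 ≤ L := by linarith
  have hll : Real.log lam ≤ L ^ 2 := by
    have h1 : Real.log lam ≤ Real.log ((Y : ℝ) ^ 2) := Real.log_le_log (by linarith) (by nlinarith)
    rw [Real.log_pow, ← hL] at h1
    push_cast at h1
    nlinarith
  have hl0 : 0 < Real.log lam := by
    have : L ≤ Real.log lam := by rw [hL]; exact Real.log_le_log (by linarith) hYle
    linarith
  obtain ⟨B, hB⟩ : ∃ B, B = {x : ℝ | ∃ m : ℕ, 0 < m ∧ Even m ∧ |(m : ℝ) - lam * x| ≤ Real.log lam ^ W ∧ ¬ Q m} := ⟨_, rfl⟩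
  rw [← hB]
  have hbc := bad_cells ν T D n ψ hν hD hψ hcell B
  obtain ⟨v, hv⟩ : ∃ v : {j // j ∈ range n} → ℤ, ∀ i, v i = ⌊lam * ((ψ i.1 : ℝ) / D)⌋ := ⟨_, fun _ => rfl⟩
  have hvf : ∀ i, |(v i : ℝ) - lam * ((ψ i.1 : ℝ) / D)| ≤ 1 := by
    intro i
    rw [hv, abs_sub_comm, abs_of_nonneg (by linarith [Int.floor_le (lam * ((ψ i.1 : ℝ) / D))])]
    linarith [Int.lt_floor_add_one (lam * ((ψ i.1 : ℝ) / D))]
  have hn0 : (0 : ℝ) < n := by exact_mod_cast hn
  have hD0 : (0 : ℝ) < D := by exact_mod_cast hD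
  have h1 := Pool.Agent.HP25.NI.en_mo q C₀ Y (by omega) hq (range n) (by rw [card_range]; exact hn0)
    (fun j => lam * ((ψ j : ℝ) / D)) hMo v hvf
  have hfc : Fintype.card {j // j ∈ range n} = n := by rw [Fintype.card_coe, card_range]
  have h2 := hnear Y (by omega) {j // j ∈ range n} v (fun i => by
      rw [hv, Int.floor_le_iff]
      have h3 : ψ i.1 ≤ T * D := by have := hψ i.1 (mem_range.1 i.2); omega
      have h4 : (ψ i.1 : ℝ) / D ≤ T := by
        rw [div_le_iff₀ hD0]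
        exact_mod_cast h3
      have h5 : lam * ((ψ i.1 : ℝ) / D) ≤ lam * T := mul_le_mul_of_nonneg_left h4 (by linarith)
      have h6 : lam * T ≤ 2 * Y * T := mul_le_mul_of_nonneg_right (by linarith) (Nat.cast_nonneg _)
      push_cast
      nlinarith) (by
      rw [pow_one]
      refine h1.trans ?_
      apply mul_le_mul_of_nonneg_right _ (by positivity)
      rw [← hL]
      linarith) (univ.filter (fun i => ∃ x ∈ B, x ∈ cell D (ψ i.1))) (by
      intro i hi
      rw [mem_filter] at hi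
      obtain ⟨x, hxB, hx⟩ := hi.2
      rw [hB] at hxB
      obtain ⟨m, hm1, hm2, hm3, hm4⟩ := hxB
      refine ⟨m, hm1, hm2, ?_, hm4⟩
      push_cast
      have h5 : |(m : ℝ) - v i| ≤ L ^ (2 * W) + 2 := by
        have h6 : (m : ℝ) - v i = ((m : ℝ) - lam * x) + (lam * x - lam * ((ψ i.1 : ℝ) / D)) -
            ((v i : ℝ) - lam * ((ψ i.1 : ℝ) / D)) := by ring
        rw [h6]
        refine (abs_sub _ _).trans ?_
        have g1 := abs_add_le ((m : ℝ) - lam * x) (lam * x - lam * ((ψ i.1 : ℝ) / D))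
        have g2 := hvf i
        have g3 := cell_close D (ψ i.1) x lam (by linarith) hDl hx
        have g4 : Real.log lam ^ W ≤ L ^ (2 * W) := by
          rw [pow_mul]
          exact pow_le_pow_left₀ hl0.le hll W
        linarith
      refine h5.trans ?_
      rw [← hL, pow_succ]
      have : (1 : ℝ) ≤ L ^ (2 * W) := one_le_pow₀ (by linarith)
      nlinarith)
  rw [hfc, ← hL] at h2
  have h8 : (((range n).filter (fun j => ∃ x ∈ B, x ∈ cell D (ψ j))).card : ℝ) ≤
      ((univ.filter (fun i : {j // j ∈ range n} => ∃ x ∈ B, x ∈ cell D (ψ i.1))).card : ℝ) := by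
    apply Nat.cast_le.2
    have e1 : (range n).filter (fun j => ∃ x ∈ B, x ∈ cell D (ψ j)) ⊆
        ((univ : Finset {j // j ∈ range n}).filter (fun i => ∃ x ∈ B, x ∈ cell D (ψ i.1))).image (fun i => i.1) := by
      intro j hj
      rw [mem_filter] at hj
      rw [mem_image]
      exact ⟨⟨j, hj.1⟩, mem_filter.2 ⟨mem_univ _, hj.2⟩, rfl⟩
    exact (card_le_card e1).trans card_image_le
  have h9 : ν.real B * n ≤ 2 * (n / L ^ (2 * U + 1)) := hbc.trans (mul_le_mul_of_nonneg_left (h8.trans h2) (by norm_num))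
  have h10 : ν.real B ≤ 2 / L ^ (2 * U + 1) := by
    have h11 : 2 * (n / L ^ (2 * U + 1)) = (2 / L ^ (2 * U + 1)) * n := by ring
    rw [h11] at h9
    exact le_of_mul_le_mul_right h9 hn0
  refine h10.trans ?_
  have h12 : Real.log lam ^ U ≤ L ^ (2 * U) := by
    rw [pow_mul]
    exact pow_le_pow_left₀ hl0.le hll U
  have h13 : 0 < Real.log lam ^ U := by positivity
  rw [div_le_div_iff₀ (by positivity) h13, pow_succ]
  nlinarith

open Classical in
/-- From estimates at single scales to almost all points. -/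
lemma ae_scales (ν : Measure ℝ) [IsProbabilityMeasure ν] (lam : ℕ → ℝ) (c : ℝ) (hc : 0 < c)
    (hlam : ∀ᶠ k : ℕ in atTop, Real.exp ((k : ℝ) ^ c) ≤ lam k) (B : ℝ → Set ℝ)
    (h : ∀ U : ℕ, ∃ N₀ : ℕ, ∀ x : ℝ, (N₀ : ℝ) ≤ x → ν.real (B x) ≤ 1 / Real.log x ^ U) :
    ∀ᵐ x ∂ν, ∀ᶠ k : ℕ in atTop, x ∉ B (lam k) := by
  obtain ⟨U, hU⟩ := exists_nat_ge (2 / c)
  obtain ⟨N₀, hN₀⟩ := h U
  have htend : Tendsto (fun k : ℕ => Real.exp ((k : ℝ) ^ c)) atTop atTop :=
    Real.tendsto_exp_atTop.comp ((tendsto_rpow_atTop hc).comp tendsto_natCast_atTop_atTop)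
  obtain ⟨k₀, hk₀⟩ := eventually_atTop.1 ((hlam.and (htend.eventually_ge_atTop (N₀ : ℝ))).and (eventually_ge_atTop 1))
  have hb : ∀ k, k₀ ≤ k → ν.real (B (lam k)) ≤ 1 / (k : ℝ) ^ 2 := by
    intro k hk
    obtain ⟨⟨h1, h2⟩, h3⟩ := hk₀ k hk
    refine (hN₀ (lam k) (h2.trans h1)).trans ?_
    have hk1 : (1 : ℝ) ≤ k := by exact_mod_cast h3
    have hl : (k : ℝ) ^ c ≤ Real.log (lam k) := by
      rw [Real.le_log_iff_exp_le (lt_of_lt_of_le (Real.exp_pos _) h1)]
      exact h1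
    apply one_div_le_one_div_of_le (by positivity)
    calc (k : ℝ) ^ 2 = (k : ℝ) ^ (2 : ℝ) := by norm_cast
      _ ≤ (k : ℝ) ^ (c * U) := by
          apply Real.rpow_le_rpow_of_exponent_le hk1
          rw [div_le_iff₀ hc] at hU
          linarith
      _ = ((k : ℝ) ^ c) ^ U := by rw [Real.rpow_mul (by positivity), Real.rpow_natCast]
      _ ≤ _ := pow_le_pow_left₀ (by positivity) hl U
  have hae : ∀ᵐ x ∂ν, ∀ᶠ k : ℕ in atTop, x ∉ B (lam (k + k₀)) := by
    apply ae_eventually_notMem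
    have hs : Summable (fun k : ℕ => 1 / ((k : ℝ)) ^ 2) := Real.summable_one_div_nat_pow.2 (by norm_num)
    have hs2 : Summable (fun k : ℕ => ν.real (B (lam (k + k₀)))) := by
      apply Summable.of_nonneg_of_le (fun _ => measureReal_nonneg) (fun k => ?_) ((summable_nat_add_iff k₀).2 hs)
      exact hb (k + k₀) (by omega)
    have e1 : ∀ k : ℕ, ν (B (lam (k + k₀))) = ENNReal.ofReal (ν.real (B (lam (k + k₀)))) := by
      intro k
      rw [ofReal_measureReal (measure_lt_top _ _).ne]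
    simp only [e1]
    rw [← ENNReal.ofReal_tsum_of_nonneg (fun _ => measureReal_nonneg) hs2]
    exact ENNReal.ofReal_ne_top
  filter_upwards [hae] with x hx
  obtain ⟨k₁, hk₁⟩ := eventually_atTop.1 hx
  rw [eventually_atTop]
  refine ⟨k₁ + k₀, fun k hk => ?_⟩
  have := hk₁ (k - k₀) (by omega)
  rwa [Nat.sub_add_cancel (by omega)] at this

end Pool.Agent.HP25.FD
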