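import Pool.Agent.HP25.FD.D

set_option autoImplicit false

/-! From estimates at single scales to almost all points. -/

namespace Pool.Agent.HP25.FD
open Finset MeasureTheory Filter Topology

lemma ae_seq {α : Type} [MeasurableSpace α] (μ : Measure α) [IsProbabilityMeasure μ] (N : ℕ → ℕ) (c : ℝ) (hc : 0 < c)
    (hN : ∀ᶠ k : ℕ in atTop, Real.exp ((k : ℝ) ^ c) ≤ N k) (B : ℕ → Set α)
    (h : ∀ U : ℕ, ∃ N₀ : ℕ, ∀ k : ℕ, N₀ ≤ N k → μ.real (B k) ≤ 1 / Real.log (N k) ^ U) :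
    ∀ᵐ x ∂μ, ∀ᶠ k : ℕ in atTop, x ∉ B k := by
  obtain ⟨U, hU⟩ := exists_nat_ge (2 / c)
  obtain ⟨N₀, hN₀⟩ := h U
  have htend : Tendsto (fun k : ℕ => Real.exp ((k : ℝ) ^ c)) atTop atTop :=
    Real.tendsto_exp_atTop.comp ((tendsto_rpow_atTop hc).comp tendsto_natCast_atTop_atTop)
  obtain ⟨k₀, hk₀⟩ := eventually_atTop.1 ((hN.and (htend.eventually_ge_atTop (N₀ : ℝ))).and (eventually_ge_atTop 1))
  have hb : ∀ k, k₀ ≤ k → μ.real (B k) ≤ 1 / (k : ℝ) ^ 2 := by
    intro k hk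
    obtain ⟨⟨h1, h2⟩, h3⟩ := hk₀ k hk
    refine (hN₀ k (by exact_mod_cast h2.trans h1)).trans ?_
    have hk1 : (1 : ℝ) ≤ k := by exact_mod_cast h3
    have hl : (k : ℝ) ^ c ≤ Real.log (N k) := by
      rw [Real.le_log_iff_exp_le (lt_of_lt_of_le (Real.exp_pos _) h1)]
      exact h1
    apply one_div_le_one_div_of_le (by positivity)
    calc (k : ℝ) ^ 2 = (k : ℝ) ^ (2 : ℝ) := by norm_cast
      _ ≤ (k : ℝ) ^ (c * U) := by
          apply Real.rpow_le_rpow_of_exponent_le hk1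
          rw [div_le_iff₀ hc] at hU
          linarith
      _ = ((k : ℝ) ^ c) ^ U := by rw [Real.rpow_mul (by positivity), Real.rpow_natCast]
      _ ≤ _ := pow_le_pow_left₀ (by positivity) hl U
  have hae : ∀ᵐ x ∂μ, ∀ᶠ k : ℕ in atTop, x ∉ B (k + k₀) := by
    apply ae_eventually_notMem
    have hs : Summable (fun k : ℕ => 1 / ((k : ℝ)) ^ 2) := Real.summable_one_div_nat_pow.2 (by norm_num)
    have hs2 : Summable (fun k : ℕ => μ.real (B (k + k₀))) := by
      apply Summable.of_nonneg_of_le (fun _ => measureReal_nonneg) (fun k => ?_) ((summable_nat_add_iff k₀).2 hs)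
      exact hb (k + k₀) (by omega)
    have e1 : ∀ k : ℕ, μ (B (k + k₀)) = ENNReal.ofReal (μ.real (B (k + k₀))) := by
      intro k
      rw [ofReal_measureReal (measure_lt_top _ _).ne]
    simp only [e1]
    rw [← ENNReal.ofReal_tsum_of_nonneg (fun _ => measureReal_nonneg) hs2]
    exact ENNReal.ofReal_ne_top
  filter_upwards [hae] with x hx
  obtain ⟨k₁, hk₁⟩ := eventually_atTop.1 hx
  rw [eventually_atTop]
  refine ⟨k₁ + k₀, fun k hk => ?_⟩
  have := hk₁ (k - k₀) (by omega)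
  rwa [Nat.sub_add_cancel (by omega)] at this

end Pool.Agent.HP25.FD
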