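import Pool.Agent.HP25.FD.A
import Pool.Agent.HP25.OS.B

set_option autoImplicit false

/-! Random real numbers whose law has a Fourier transform of polynomial decay: bounded moments at all scales. -/

namespace Pool.Agent.HP25.FD
open Finset MeasureTheory
open Pool.Agent.H807R2.Dav
open Pool.Agent.HP25.OS (Mo)

/-- The Fourier transform of the measure decays at least as fast as `C |t| ^ (-δ)`. -/
def Decay (ν : Measure ℝ) (C δ : ℝ) : Prop := ∀ t : ℝ, ‖charFun ν t‖ * |t| ^ δ ≤ C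

lemma ee_charFun (ν : Measure ℝ) (t : ℝ) : ∫ x, ee (t * x) ∂ν = charFun ν (2 * Real.pi * t) := by
  rw [charFun_apply_real]
  congr 1
  funext x
  unfold ee
  congr 1
  push_cast
  ring

lemma decay_min (ν : Measure ℝ) [IsProbabilityMeasure ν] (C δ : ℝ) (hδ : 0 < δ) (h : Decay ν C δ) :
    Decay ν (max C 1) (min δ 1) := by
  intro t
  have hδ' : 0 < min δ 1 := lt_min hδ one_pos
  rcases le_total 1 |t| with ht | ht
  · refine le_trans ?_ ((h t).trans (le_max_left _ _))
    exact mul_le_mul_of_nonneg_left (Real.rpow_le_rpow_of_exponent_le ht (min_le_left _ _)) (norm_nonneg _)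
  · refine le_trans ?_ (le_max_right _ _)
    have h1 : ‖charFun ν t‖ ≤ 1 := by
      have := norm_charFun_le (μ := ν) t
      simpa using this
    have h2 : |t| ^ min δ 1 ≤ 1 := Real.rpow_le_one (abs_nonneg _) ht hδ'.le
    exact mul_le_one₀ h1 (Real.rpow_nonneg (abs_nonneg _) _) h2

lemma sum_sq (Y : ℕ) : ∑ t ∈ range Y, (if t = 0 then 0 else 1 / (t : ℝ) ^ 2) ≤ 2 := by
  have key : ∀ Y : ℕ, ∑ t ∈ range (Y + 2), (if t = 0 then 0 else 1 / (t : ℝ) ^ 2) ≤ 2 - 1 / ((Y : ℝ) + 1) := by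
    intro Y
    induction Y with
    | zero =>
      rw [sum_range_succ, sum_range_succ, sum_range_zero]
      norm_num
    | succ Y ih =>
      rw [show Y + 1 + 2 = (Y + 2) + 1 by ring, sum_range_succ, if_neg (by omega)]
      have h1 : (1 : ℝ) / ((Y + 2 : ℕ) : ℝ) ^ 2 ≤ 1 / ((Y : ℝ) + 1) - 1 / (((Y + 1 : ℕ) : ℝ) + 1) := by
        push_cast
        rw [div_sub_div _ _ (by positivity) (by positivity), div_le_div_iff₀ (by positivity) (by positivity)]
        nlinarith [Nat.cast_nonneg (α := ℝ) Y]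
      linarith
  rcases Nat.lt_or_ge Y 2 with h | h
  · interval_cases Y
    · norm_num
    · rw [sum_range_succ, sum_range_zero]
      norm_num
  · have := key (Y - 2)
    rw [Nat.sub_add_cancel h] at this
    have h2 : 0 < 1 / (((Y - 2 : ℕ) : ℝ) + 1) := by positivity
    linarith

/-- **Bounded moments at every scale.** -/
theorem mo_decay (C δ : ℝ) (hδ : 0 < δ) : ∃ (q : ℕ) (C₀ : ℝ), 1 ≤ q ∧ 0 < C₀ ∧
    ∀ (T : ℕ) (ν : Measure ℝ) [IsProbabilityMeasure ν], ν (Set.Icc (0 : ℝ) T)ᶜ = 0 → Decay ν C δ → ∀ lam : ℝ, 1 ≤ lam →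
    ∃ (n D : ℕ) (ψ : ℕ → ℕ), 1 ≤ n ∧ 1 ≤ D ∧ lam / (D : ℝ) ≤ 1 ∧ (∀ j < n, ψ j < T * D + 1) ∧
      (∀ c < T * D + 1, ν.real (cell D c) * n ≤ 2 * ((range n).filter (fun j => ψ j = c)).card) ∧
      Mo q C₀ ⌊lam⌋₊ (range n) (fun _ => 1 / ((range n).card : ℝ)) (fun j => lam * ((ψ j : ℝ) / D)) := by
  obtain ⟨δ', hδ'⟩ : ∃ δ', δ' = min δ 1 := ⟨_, rfl⟩
  obtain ⟨C', hC'⟩ : ∃ C', C' = max C 1 := ⟨_, rfl⟩
  have hδ0 : 0 < δ' := by rw [hδ']; exact lt_min hδ one_pos
  have hδ1 : δ' ≤ 1 := by rw [hδ']; exact min_le_right _ _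
  have hC1 : 1 ≤ C' := by rw [hC']; exact le_max_right _ _
  obtain ⟨q, hq⟩ := exists_nat_ge (1 / δ')
  have hq1r : (1 : ℝ) ≤ q := le_trans ((one_le_div hδ0).2 hδ1) hq
  have hq1 : 1 ≤ q := by exact_mod_cast hq1r
  obtain ⟨A, hA⟩ : ∃ A, A = C' * (2 * q : ℝ) ^ δ' + 1 := ⟨_, rfl⟩
  have hA0 : 0 < A := by rw [hA]; positivity
  refine ⟨q, 1 + A ^ (2 * q) * 2, hq1, by positivity, fun T ν _ hT hdec lam hlam => ?_⟩
  have hdec' := decay_min ν C δ hδ hdec
  rw [← hδ', ← hC'] at hdec'
  obtain ⟨η, hη⟩ : ∃ η : ℝ, η = 1 / (lam + 1) ^ 2 := ⟨_, rfl⟩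
  have hη0 : 0 < η := by rw [hη]; positivity
  obtain ⟨n, D, ψ, hn, hD, hDη, hψ, hcell, hF⟩ := quant ν T hT η hη0
  have hD0 : (0 : ℝ) < D := by exact_mod_cast hD
  obtain ⟨Y, hY⟩ : ∃ Y, Y = ⌊lam⌋₊ := ⟨_, rfl⟩
  have hY1 : 1 ≤ Y := by rw [hY]; exact (Nat.one_le_floor_iff _).2 hlam
  have hYr : (1 : ℝ) ≤ Y := by exact_mod_cast hY1
  have hYle : (Y : ℝ) ≤ lam := by rw [hY]; exact Nat.floor_le (by linarith)
  have hYlt : lam < Y + 1 := by rw [hY]; exact Nat.lt_floor_add_one _
  have hn0 : (0 : ℝ) < n := by exact_mod_cast hn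
  refine ⟨n, D, ψ, hn, hD, ?_, hψ, hcell, ?_⟩
  · have h1 : lam / D = lam * (1 / D) := by ring
    rw [h1]
    calc lam * (1 / (D : ℝ)) ≤ lam * η := mul_le_mul_of_nonneg_left hDη (by linarith)
      _ ≤ 1 := by
        rw [hη, mul_one_div, div_le_one (by positivity)]
        nlinarith
  · rw [← hY]
    refine ⟨fun _ _ => by positivity, ?_, ?_⟩
    · rw [sum_const, nsmul_eq_mul, card_range, mul_one_div_cancel hn0.ne']
    · obtain ⟨Mq, hMq⟩ : ∃ Mq : ℝ, Mq = ((12 * q * Y : ℕ) : ℝ) := ⟨_, rfl⟩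
      have hMq' : Mq = 12 * q * Y := by rw [hMq]; push_cast; ring
      rw [← hMq]
      have hMq0 : 0 < Mq := by rw [hMq']; positivity
      -- the bound for the single sums
      have hb : ∀ t ∈ range Y, ‖∑ j ∈ range n, ((1 / ((range n).card : ℝ) : ℝ) : ℂ) * ee ((t : ℝ) / Mq * (lam * ((ψ j : ℝ) / D)))‖ ^ (2 * q) ≤
          (if t = 0 then 1 else 0) + A ^ (2 * q) * (if t = 0 then 0 else 1 / (t : ℝ) ^ 2) := by
        intro t ht
        have htY : (t : ℝ) ≤ Y := by exact_mod_cast (mem_range.1 ht).le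
        obtain ⟨x, hx⟩ : ∃ x : ℝ, x = (t : ℝ) / Mq * lam := ⟨_, rfl⟩
        have e1 : ∑ j ∈ range n, ((1 / ((range n).card : ℝ) : ℝ) : ℂ) * ee ((t : ℝ) / Mq * (lam * ((ψ j : ℝ) / D))) =
            ∑ j ∈ range n, ((1 / (n : ℝ) : ℝ) : ℂ) * ee (x * ((ψ j : ℝ) / D)) := by
          rw [card_range]
          apply sum_congr rfl
          intro j _
          congr 2
          rw [hx]
          ring
        rw [e1]
        obtain ⟨Z, hZ⟩ : ∃ Z, Z = ∑ j ∈ range n, ((1 / (n : ℝ) : ℝ) : ℂ) * ee (x * ((ψ j : ℝ) / D)) := ⟨_, rfl⟩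
        rw [← hZ]
        have hx0 : 0 ≤ x := by rw [hx]; positivity
        have hZ1 : ‖Z‖ ≤ 1 := by
          rw [hZ]
          refine (norm_sum_le _ _).trans ?_
          have : ∀ j ∈ range n, ‖((1 / (n : ℝ) : ℝ) : ℂ) * ee (x * ((ψ j : ℝ) / D))‖ = 1 / (n : ℝ) := by
            intro j _
            rw [norm_mul, norm_ee, mul_one, Complex.norm_real, Real.norm_eq_abs, abs_of_pos (by positivity)]
          rw [sum_congr rfl this, sum_const, card_range, nsmul_eq_mul, mul_one_div_cancel hn0.ne']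
        split_ifs with h0
        · rw [mul_zero, add_zero]
          exact pow_le_one₀ (norm_nonneg _) hZ1
        · rw [zero_add]
          have ht1 : (1 : ℝ) ≤ t := by exact_mod_cast (by omega : 1 ≤ t)
          have ht0 : (0 : ℝ) < t := by linarith
          have hxlow : (t : ℝ) / (12 * q) ≤ x := by
            rw [hx, hMq', div_mul_eq_mul_div, div_le_div_iff₀ (by positivity) (by positivity)]
            have : (t : ℝ) * (12 * q) * Y ≤ t * (12 * q) * lam := mul_le_mul_of_nonneg_left hYle (by positivity)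
            nlinarith
          have hxup : x ≤ lam := by
            rw [hx, hMq']
            have h1 : (t : ℝ) / (12 * q * Y) ≤ 1 := by
              rw [div_le_one (by positivity)]
              nlinarith
            calc (t : ℝ) / (12 * q * Y) * lam ≤ 1 * lam := mul_le_mul_of_nonneg_right h1 (by linarith)
              _ = lam := one_mul _
          have h2 := hF x
          rw [← hZ, ee_charFun, abs_of_nonneg hx0] at h2
          have h3 : (1 + x) * η ≤ 1 / (t : ℝ) := by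
            calc (1 + x) * η ≤ (1 + lam) * η := by gcongr
              _ = 1 / (lam + 1) := by rw [hη]; field_simp; ring
              _ ≤ 1 / (t : ℝ) := one_div_le_one_div_of_le ht0 (by linarith)
          have h4 := hdec' (2 * Real.pi * x)
          have hpi := Real.pi_gt_three
          have h5 : (t : ℝ) / (2 * q) ≤ 2 * Real.pi * x := by
            calc (t : ℝ) / (2 * q) = 6 * (t / (12 * q)) := by field_simp; ring
              _ ≤ 6 * x := mul_le_mul_of_nonneg_left hxlow (by norm_num)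
              _ ≤ _ := mul_le_mul_of_nonneg_right (by linarith) hx0
          have h6 : ‖charFun ν (2 * Real.pi * x)‖ ≤ C' * (2 * q : ℝ) ^ δ' * (1 / (t : ℝ) ^ δ') := by
            have h7 : ((t : ℝ) / (2 * q)) ^ δ' ≤ |2 * Real.pi * x| ^ δ' := by
              rw [abs_of_nonneg (by positivity)]
              exact Real.rpow_le_rpow (by positivity) h5 hδ0.le
            have h8 : ‖charFun ν (2 * Real.pi * x)‖ * ((t : ℝ) / (2 * q)) ^ δ' ≤ C' :=
              (mul_le_mul_of_nonneg_left h7 (norm_nonneg _)).trans h4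
            rw [Real.div_rpow ht0.le (by positivity)] at h8
            have hp1 : 0 < (t : ℝ) ^ δ' := Real.rpow_pos_of_pos ht0 _
            have hp2 : 0 < (2 * q : ℝ) ^ δ' := Real.rpow_pos_of_pos (by positivity) _
            rw [mul_div_assoc', div_le_iff₀ hp2] at h8
            rw [mul_one_div, le_div_iff₀ hp1]
            exact h8
          have h9 : 1 / (t : ℝ) ≤ 1 / (t : ℝ) ^ δ' := by
            apply one_div_le_one_div_of_le (Real.rpow_pos_of_pos ht0 _)
            calc (t : ℝ) ^ δ' ≤ (t : ℝ) ^ (1 : ℝ) := Real.rpow_le_rpow_of_exponent_le ht1 hδ1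
              _ = t := Real.rpow_one _
          have h10 : ‖Z‖ ≤ A * (1 / (t : ℝ) ^ δ') := by
            have h11 : ‖Z‖ ≤ ‖Z - charFun ν (2 * Real.pi * x)‖ + ‖charFun ν (2 * Real.pi * x)‖ := by
              have := norm_add_le (Z - charFun ν (2 * Real.pi * x)) (charFun ν (2 * Real.pi * x))
              rwa [sub_add_cancel] at this
            rw [hA, add_mul, one_mul]
            linarith
          have h12 : ‖Z‖ ^ (2 * q) ≤ (A * (1 / (t : ℝ) ^ δ')) ^ (2 * q) := pow_le_pow_left₀ (norm_nonneg _) h10 _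
          refine h12.trans ?_
          rw [mul_pow]
          apply mul_le_mul_of_nonneg_left _ (by positivity)
          rw [div_pow, one_pow]
          apply one_div_le_one_div_of_le (by positivity)
          rw [← Real.rpow_natCast ((t : ℝ) ^ δ'), ← Real.rpow_mul ht0.le, ← Real.rpow_natCast (t : ℝ) 2]
          apply Real.rpow_le_rpow_of_exponent_le ht1
          push_cast
          rw [div_le_iff₀ hδ0] at hq
          linarith
      refine (sum_le_sum hb).trans ?_
      rw [sum_add_distrib, ← mul_sum]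
      have h1 := sum_sq Y
      have h2 : ∑ t ∈ range Y, (if t = 0 then (1 : ℝ) else 0) = 1 := by
        rw [sum_ite_eq' (range Y) 0 (fun _ => (1 : ℝ)), if_pos (mem_range.2 hY1)]
      rw [h2]
      have h3 : 0 ≤ A ^ (2 * q) := by positivity
      nlinarith

end Pool.Agent.HP25.FD
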