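import Pool.Agent.HP25.NI.A
import Mathlib

set_option autoImplicit false

/-! Approximation of probability measures on the line by uniform finite families. -/

namespace Pool.Agent.HP25.FD
open Finset MeasureTheory
open Pool.Agent.H807R2.Dav
open Pool.Agent.HP25.NI (ee_lip)

/-- families with prescribed multiplicities -/
lemma mult (N : ℕ → ℕ) : ∀ K : ℕ, ∃ ψ : ℕ → ℕ, (∀ j < ∑ c ∈ range K, N c, ψ j < K) ∧
    ∀ c < K, ((range (∑ c ∈ range K, N c)).filter (fun j => ψ j = c)).card = N c := by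
  intro K
  induction K with
  | zero => exact ⟨fun _ => 0, by simp, by simp⟩
  | succ K ih =>
    obtain ⟨ψ, h1, h2⟩ := ih
    obtain ⟨S, hS⟩ : ∃ S, S = ∑ c ∈ range K, N c := ⟨_, rfl⟩
    rw [← hS] at h1 h2
    rw [sum_range_succ, ← hS]
    refine ⟨fun j => if j < S then ψ j else K, ?_, ?_⟩
    · intro j _
      beta_reduce
      split_ifs with h
      · have := h1 j h
        omega
      · omega
    · intro c hc
      rcases Nat.lt_or_ge c K with hcK | hcK
      · rw [← h2 c hcK]
        congr 1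
        ext j
        simp only [mem_filter, mem_range]
        constructor
        · rintro ⟨a, b⟩
          split_ifs at b with h
          · exact ⟨h, b⟩
          · omega
        · rintro ⟨a, b⟩
          refine ⟨by omega, ?_⟩
          rw [if_pos a]
          exact b
      · have hcK' : c = K := by omega
        subst hcK'
        have : ((range (S + N c)).filter (fun j => (if j < S then ψ j else c) = c)) = Ico S (S + N c) := by
          ext j
          simp only [mem_filter, mem_range, mem_Ico]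
          constructor
          · rintro ⟨a, b⟩
            split_ifs at b with h
            · have := h1 j h
              omega
            · omega
          · rintro ⟨a, b⟩
            refine ⟨b, ?_⟩
            rw [if_neg (by omega)]
        rw [this, Nat.card_Ico]
        omega

/-- sums over families with prescribed multiplicities -/
lemma sum_mult {E : Type} [AddCommMonoid E] (n K : ℕ) (ψ : ℕ → ℕ) (h : ∀ j < n, ψ j < K) (F : ℕ → E) :
    ∑ j ∈ range n, F (ψ j) = ∑ c ∈ range K, ((range n).filter (fun j => ψ j = c)).card • F c := by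
  rw [← sum_fiberwise_of_maps_to (s := range n) (t := range K) (g := ψ) (fun i hi => mem_range.2 (h i (mem_range.1 hi)))]
  apply sum_congr rfl
  intro c _
  rw [← sum_const]
  apply sum_congr rfl
  intro i hi
  rw [(mem_filter.1 hi).2]

/-- the cell number `c` of the grid of width `1 / D` -/
def cell (D c : ℕ) : Set ℝ := Set.Ico ((c : ℝ) / D) (((c : ℝ) + 1) / D)

lemma cell_meas (D c : ℕ) : MeasurableSet (cell D c) := measurableSet_Ico

lemma cell_iff (D c : ℕ) (hD : 1 ≤ D) (x : ℝ) (hx : 0 ≤ x) : x ∈ cell D c ↔ ⌊x * D⌋₊ = c := by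
  have hD0 : (0 : ℝ) < D := by exact_mod_cast hD
  unfold cell
  rw [Set.mem_Ico, div_le_iff₀ hD0, lt_div_iff₀ hD0, Nat.floor_eq_iff (by positivity)]

lemma cell_nonneg (D c : ℕ) (x : ℝ) (hx : x ∈ cell D c) : 0 ≤ x := le_trans (by positivity) hx.1

lemma cell_disj (D : ℕ) (hD : 1 ≤ D) (a b : ℕ) (hab : a ≠ b) : Disjoint (cell D a) (cell D b) := by
  rw [Set.disjoint_left]
  intro x h1 h2
  have hx := cell_nonneg D a x h1
  rw [cell_iff D a hD x hx] at h1
  rw [cell_iff D b hD x hx] at h2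
  exact hab (h1.symm.trans h2)

lemma cell_cover (D T : ℕ) (hD : 1 ≤ D) : Set.Icc (0 : ℝ) T ⊆ ⋃ c ∈ range (T * D + 1), cell D c := by
  intro x hx
  rw [Set.mem_iUnion₂]
  refine ⟨⌊x * D⌋₊, ?_, (cell_iff D _ hD x hx.1).2 rfl⟩
  rw [mem_range, Nat.lt_succ_iff]
  apply Nat.floor_le_of_le
  push_cast
  exact mul_le_mul_of_nonneg_right hx.2 (Nat.cast_nonneg _)

lemma union_null (ν : Measure ℝ) (T D : ℕ) (hD : 1 ≤ D) (hν : ν (Set.Icc (0 : ℝ) T)ᶜ = 0) :
    ν (⋃ c ∈ range (T * D + 1), cell D c)ᶜ = 0 :=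
  measure_mono_null (Set.compl_subset_compl.2 (cell_cover D T hD)) hν

lemma sum_cells (ν : Measure ℝ) [IsProbabilityMeasure ν] (T D : ℕ) (hD : 1 ≤ D) (hν : ν (Set.Icc (0 : ℝ) T)ᶜ = 0) :
    ∑ c ∈ range (T * D + 1), ν.real (cell D c) = 1 := by
  have h1 : ν.real (⋃ c ∈ range (T * D + 1), cell D c) = ∑ c ∈ range (T * D + 1), ν.real (cell D c) := by
    rw [measureReal_biUnion_finset]
    · intro a _ b _ hab
      exact cell_disj D hD a b hab
    · intro c _
      exact cell_meas D c
  rw [← h1]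
  have h2 : ν (⋃ c ∈ range (T * D + 1), cell D c) = 1 :=
    (prob_compl_eq_zero_iff (Finset.measurableSet_biUnion _ fun c _ => cell_meas D c)).1 (union_null ν T D hD hν)
  rw [measureReal_def, h2, ENNReal.toReal_one]

lemma ee_cont (t : ℝ) : Continuous (fun x : ℝ => ee (t * x)) := by
  unfold ee
  fun_prop

lemma ee_integrable (ν : Measure ℝ) [IsProbabilityMeasure ν] (t : ℝ) : Integrable (fun x : ℝ => ee (t * x)) ν := by
  apply Integrable.of_bound (ee_cont t).aestronglyMeasurable 1
  filter_upwards with x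
  rw [norm_ee]

/-- integrals as sums over the cells -/
lemma int_cells (ν : Measure ℝ) [IsProbabilityMeasure ν] (T D : ℕ) (hD : 1 ≤ D) (hν : ν (Set.Icc (0 : ℝ) T)ᶜ = 0) (t : ℝ) :
    ∫ x, ee (t * x) ∂ν = ∑ c ∈ range (T * D + 1), ∫ x in cell D c, ee (t * x) ∂ν := by
  rw [← integral_biUnion_finset]
  · rw [Measure.restrict_eq_self_of_ae_mem]
    rw [ae_iff]
    exact union_null ν T D hD hν
  · intro c _
    exact cell_meas D c
  · intro a _ b _ hab
    exact cell_disj D hD a b hab
  · intro c _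
    exact (ee_integrable ν t).integrableOn

/-- **Approximation of a probability measure by a uniform finite family.** -/
lemma quant (ν : Measure ℝ) [IsProbabilityMeasure ν] (T : ℕ) (hν : ν (Set.Icc (0 : ℝ) T)ᶜ = 0) (η : ℝ) (hη : 0 < η) :
    ∃ (n D : ℕ) (ψ : ℕ → ℕ), 1 ≤ n ∧ 1 ≤ D ∧ 1 / (D : ℝ) ≤ η ∧ (∀ j < n, ψ j < T * D + 1) ∧
      (∀ c < T * D + 1, ν.real (cell D c) * n ≤ 2 * ((range n).filter (fun j => ψ j = c)).card) ∧
      (∀ t : ℝ, ‖∑ j ∈ range n, ((1 / (n : ℝ) : ℝ) : ℂ) * ee (t * ((ψ j : ℝ) / D)) - ∫ x, ee (t * x) ∂ν‖ ≤ (1 + |t|) * η) := by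
  obtain ⟨D, hD⟩ := exists_nat_ge (7 / η + 1)
  have hD1r : (1 : ℝ) ≤ D := le_trans (by have : 0 < 7 / η := by positivity
                                          linarith) hD
  have hD1 : 1 ≤ D := by exact_mod_cast hD1r
  have hD7 : 7 / (D : ℝ) ≤ η := by
    rw [div_le_iff₀ (by linarith)]
    have h1 : 7 / η ≤ D := by linarith
    rw [div_le_iff₀ hη] at h1
    linarith
  obtain ⟨K, hK⟩ : ∃ K, K = T * D + 1 := ⟨_, rfl⟩
  obtain ⟨w, hw⟩ : ∃ w : ℕ → ℝ, ∀ c, w c = ν.real (cell D c) := ⟨_, fun _ => rfl⟩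
  have hw0 : ∀ c, 0 ≤ w c := fun c => by rw [hw]; exact measureReal_nonneg
  have hw1 : ∑ c ∈ range K, w c = 1 := by
    rw [hK]
    simp only [hw]
    exact sum_cells ν T D hD1 hν
  have hKr : (1 : ℝ) ≤ K := by rw [hK]; push_cast; nlinarith [Nat.cast_nonneg (α := ℝ) T]
  obtain ⟨M, hM⟩ := exists_nat_ge ((K : ℝ) + 2 * K / η)
  have hp : 0 < 2 * (K : ℝ) / η := by positivity
  have hMK : (K : ℝ) ≤ M := by linarith
  have hM0 : (0 : ℝ) < M := by linarith
  have hMη : 2 * (K : ℝ) / M ≤ η := by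
    rw [div_le_iff₀ hM0]
    have h1 : 2 * (K : ℝ) / η ≤ M := by linarith
    rw [div_le_iff₀ hη] at h1
    linarith
  obtain ⟨N, hN⟩ : ∃ N : ℕ → ℕ, ∀ c, N c = ⌊M * w c⌋₊ + 1 := ⟨_, fun _ => rfl⟩
  obtain ⟨ψ, h1, h2⟩ := mult N K
  obtain ⟨n, hn⟩ : ∃ n, n = ∑ c ∈ range K, N c := ⟨_, rfl⟩
  rw [← hn] at h1 h2
  have hNlow : ∀ c, M * w c ≤ N c := by
    intro c
    rw [hN]
    push_cast
    exact (Nat.lt_floor_add_one _).le
  have hNup : ∀ c, (N c : ℝ) ≤ M * w c + 1 := by
    intro c
    rw [hN]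
    push_cast
    linarith [Nat.floor_le (mul_nonneg hM0.le (hw0 c))]
  have hnr : (n : ℝ) = ∑ c ∈ range K, (N c : ℝ) := by rw [hn]; push_cast; rfl
  have hnlow : (M : ℝ) ≤ n := by
    rw [hnr]
    calc (M : ℝ) = ∑ c ∈ range K, M * w c := by rw [← mul_sum, hw1, mul_one]
      _ ≤ _ := sum_le_sum fun c _ => hNlow c
  have hnup : (n : ℝ) ≤ M + K := by
    rw [hnr]
    calc ∑ c ∈ range K, (N c : ℝ) ≤ ∑ c ∈ range K, (M * w c + 1) := sum_le_sum fun c _ => hNup c
      _ = _ := by rw [sum_add_distrib, ← mul_sum, hw1, mul_one, sum_const, card_range, nsmul_eq_mul, mul_one]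
  have hn0 : (0 : ℝ) < n := by linarith
  refine ⟨n, D, ψ, by exact_mod_cast (by linarith : (1 : ℝ) ≤ n), hD1, ?_, ?_, ?_, ?_⟩
  · refine le_trans ?_ hD7
    exact div_le_div_of_nonneg_right (by norm_num) (by linarith)
  · rw [← hK]
    exact h1
  · intro c hc
    rw [← hK] at hc
    rw [h2 c hc, ← hw]
    have h3 := hNlow c
    have h4 := hw0 c
    nlinarith
  · intro t
    obtain ⟨u, hu⟩ : ∃ u : ℕ → ℝ, ∀ c, u c = N c / n := ⟨_, fun _ => rfl⟩
    have hu1 : ∑ c ∈ range K, u c = 1 := by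
      simp only [hu]
      rw [← sum_div, ← hnr, div_self hn0.ne']
    have e1 : ∑ j ∈ range n, ((1 / (n : ℝ) : ℝ) : ℂ) * ee (t * ((ψ j : ℝ) / D)) =
        ∑ c ∈ range K, ((u c : ℝ) : ℂ) * ee (t * ((c : ℝ) / D)) := by
      rw [sum_mult n K ψ h1 (fun c => ((1 / (n : ℝ) : ℝ) : ℂ) * ee (t * ((c : ℝ) / D)))]
      apply sum_congr rfl
      intro c hc
      rw [h2 c (mem_range.1 hc), hu, nsmul_eq_mul]
      push_cast
      ring
    rw [e1, int_cells ν T D hD1 hν t, ← hK, ← sum_sub_distrib]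
    refine (norm_sum_le _ _).trans ?_
    have h3 : ∀ c ∈ range K, ‖((u c : ℝ) : ℂ) * ee (t * ((c : ℝ) / D)) - ∫ x in cell D c, ee (t * x) ∂ν‖ ≤
        |w c - u c| + 7 * |t| / D * w c := by
      intro c _
      have h4 : ((u c : ℝ) : ℂ) * ee (t * ((c : ℝ) / D)) - ∫ x in cell D c, ee (t * x) ∂ν =
          (((u c - w c : ℝ)) : ℂ) * ee (t * ((c : ℝ) / D)) + (((w c : ℝ) : ℂ) * ee (t * ((c : ℝ) / D)) - ∫ x in cell D c, ee (t * x) ∂ν) := by
        push_cast
        ring
      rw [h4]
      refine (norm_add_le _ _).trans (add_le_add ?_ ?_)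
      · rw [norm_mul, norm_ee, mul_one, Complex.norm_real, Real.norm_eq_abs, abs_sub_comm]
      · have h5 : ((w c : ℝ) : ℂ) * ee (t * ((c : ℝ) / D)) = ∫ x in cell D c, ee (t * ((c : ℝ) / D)) ∂ν := by
          rw [setIntegral_const, hw, Complex.real_smul]
        rw [h5, ← integral_sub]
        · rw [hw]
          apply norm_setIntegral_le_of_norm_le_const (measure_lt_top _ _)
          intro x hx
          refine (ee_lip _ _).trans ?_
          rw [← mul_sub, abs_mul]
          have h6 : |(c : ℝ) / D - x| ≤ 1 / D := by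
            rw [abs_sub_comm, abs_le]
            have h7 := hx.1
            have h8 := hx.2
            rw [add_div] at h8
            constructor
            · have : 0 < 1 / (D : ℝ) := by positivity
              linarith
            · linarith
          calc 7 * (|t| * |(c : ℝ) / D - x|) ≤ 7 * (|t| * (1 / D)) := by gcongr
            _ = _ := by ring
        · exact integrable_const _
        · exact (ee_integrable ν t).integrableOn
    refine (sum_le_sum h3).trans ?_
    rw [sum_add_distrib, ← mul_sum, hw1, mul_one]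
    have h9 : ∑ c ∈ range K, |w c - u c| ≤ 2 * K / M := by
      have h10 : ∀ c ∈ range K, |w c - u c| ≤ 2 * (K / M * u c) - (w c - u c) := by
        intro c _
        have h11 : w c ≤ (1 + K / M) * u c := by
          rw [hu]
          have h12 := hNlow c
          have h13 : (0 : ℝ) ≤ N c := Nat.cast_nonneg _
          have h14 : w c ≤ N c / M := by
            rw [le_div_iff₀ hM0]
            linarith
          refine h14.trans ?_
          rw [show (1 + (K : ℝ) / M) * (N c / n) = N c / M * ((M + K) / n) by field_simp]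
          have h15 : 1 ≤ (M + K) / (n : ℝ) := (one_le_div hn0).2 hnup
          have h16 : 0 ≤ (N c : ℝ) / M := by positivity
          nlinarith
        have hu0 : 0 ≤ K / M * u c := by
          rw [hu]
          positivity
        rcases abs_cases (w c - u c) with ⟨h, _⟩ | ⟨h, _⟩ <;> rw [h] <;> nlinarith
      refine (sum_le_sum h10).trans (le_of_eq ?_)
      rw [sum_sub_distrib, sum_sub_distrib, ← mul_sum, ← mul_sum, hw1, hu1]
      ring
    have h17 : 7 * |t| / (D : ℝ) ≤ |t| * η := by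
      calc 7 * |t| / (D : ℝ) = |t| * (7 / D) := by ring
        _ ≤ _ := mul_le_mul_of_nonneg_left hD7 (abs_nonneg _)
    linarith

end Pool.Agent.HP25.FD
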