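import Pool.Agent.HP25.FD.C
import Pool.Agent.HP25.NI.F

set_option autoImplicit false

/-! All integer vectors near the multiples of almost all points of products of measures whose Fourier transforms decay
polynomially. -/

namespace Pool.Agent.HP25.FD
open Finset MeasureTheory Filter Topology
open Pool.Agent.H807R2.Dav
open Pool.Agent.HP25.OS (Mo NL)

open Classical in
/-- the product measure of a set and the number of the vectors of members of the families in the cells which meet it -/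
lemma bad_cells_pi (r : ℕ) (ν : Fin r → Measure ℝ) [∀ i, IsProbabilityMeasure (ν i)] (T : ℕ) (D n : Fin r → ℕ)
    (ψ : Fin r → ℕ → ℕ) (hν : ∀ i, ν i (Set.Icc (0 : ℝ) T)ᶜ = 0) (hD : ∀ i, 1 ≤ D i)
    (hψ : ∀ i, ∀ j < n i, ψ i j < T * D i + 1)
    (hcell : ∀ i, ∀ c < T * D i + 1, (ν i).real (cell (D i) c) * n i ≤ 2 * ((range (n i)).filter (fun j => ψ i j = c)).card)
    (B : Set (Fin r → ℝ)) :
    (Measure.pi ν).real B * ∏ i, (n i : ℝ) ≤
      2 ^ r * ((Fintype.piFinset (fun i => range (n i))).filter (fun j => ∃ x ∈ B, ∀ i, x i ∈ cell (D i) (ψ i (j i)))).card := by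
  obtain ⟨I, hI⟩ : ∃ I : Finset (Fin r → ℕ), I = (Fintype.piFinset (fun i => range (T * D i + 1))).filter
    (fun c => ∃ x ∈ B, ∀ i, x i ∈ cell (D i) (c i)) := ⟨_, rfl⟩
  have h1 : (Measure.pi ν).real B ≤ ∑ c ∈ I, ∏ i, (ν i).real (cell (D i) (c i)) := by
    have h2 : B ⊆ (⋃ c ∈ I, Set.univ.pi (fun i => cell (D i) (c i))) ∪
        (⋃ i, Function.eval i ⁻¹' (⋃ c ∈ range (T * D i + 1), cell (D i) c)ᶜ) := by
      intro x hx
      by_cases h : ∀ i, x i ∈ ⋃ c ∈ range (T * D i + 1), cell (D i) c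
      · left
        simp only [Set.mem_iUnion₂] at h
        choose c hc hxc using h
        rw [Set.mem_iUnion₂]
        refine ⟨c, ?_, fun i _ => hxc i⟩
        rw [hI, mem_filter, Fintype.mem_piFinset]
        exact ⟨hc, x, hx, hxc⟩
      · right
        push Not at h
        obtain ⟨i, hi⟩ := h
        rw [Set.mem_iUnion]
        exact ⟨i, hi⟩
    have hnull : Measure.pi ν (⋃ i, Function.eval i ⁻¹' (⋃ c ∈ range (T * D i + 1), cell (D i) c)ᶜ) = 0 := by
      rw [measure_iUnion_null_iff]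
      intro i
      have hm : MeasurableSet (⋃ c ∈ range (T * D i + 1), cell (D i) c) :=
        Finset.measurableSet_biUnion _ fun c _ => cell_meas (D i) c
      rw [(measurePreserving_eval ν i).measure_preimage hm.compl.nullMeasurableSet]
      exact union_null (ν i) T (D i) (hD i) (hν i)
    have h3 : Measure.pi ν B ≤ ∑ c ∈ I, ∏ i, ν i (cell (D i) (c i)) := by
      calc Measure.pi ν B ≤ _ := measure_mono h2
        _ ≤ Measure.pi ν (⋃ c ∈ I, Set.univ.pi (fun i => cell (D i) (c i))) +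
            Measure.pi ν (⋃ i, Function.eval i ⁻¹' (⋃ c ∈ range (T * D i + 1), cell (D i) c)ᶜ) := measure_union_le _ _
        _ = Measure.pi ν (⋃ c ∈ I, Set.univ.pi (fun i => cell (D i) (c i))) := by rw [hnull, add_zero]
        _ ≤ ∑ c ∈ I, Measure.pi ν (Set.univ.pi (fun i => cell (D i) (c i))) := measure_biUnion_finset_le _ _
        _ = _ := by
            apply sum_congr rfl
            intro c _
            rw [Measure.pi_pi]
    have hfin : ∀ c : Fin r → ℕ, ∏ i, ν i (cell (D i) (c i)) < ⊤ := by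
      intro c
      exact ENNReal.prod_lt_top fun i _ => measure_lt_top _ _
    have h4 := ENNReal.toReal_mono (by
      apply ne_of_lt
      apply ENNReal.sum_lt_top.2
      intro c _
      exact hfin c) h3
    rw [ENNReal.toReal_sum (fun c _ => (hfin c).ne)] at h4
    refine h4.trans (le_of_eq ?_)
    apply sum_congr rfl
    intro c _
    rw [ENNReal.toReal_prod]
    rfl
  have hn0 : (0 : ℝ) ≤ ∏ i, (n i : ℝ) := prod_nonneg fun _ _ => Nat.cast_nonneg _
  calc (Measure.pi ν).real B * ∏ i, (n i : ℝ) ≤ (∑ c ∈ I, ∏ i, (ν i).real (cell (D i) (c i))) * ∏ i, (n i : ℝ) :=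
        mul_le_mul_of_nonneg_right h1 hn0
    _ = ∑ c ∈ I, ∏ i, ((ν i).real (cell (D i) (c i)) * n i) := by
        rw [sum_mul]
        apply sum_congr rfl
        intro c _
        rw [prod_mul_distrib]
    _ ≤ ∑ c ∈ I, ∏ i, (2 * (((range (n i)).filter (fun j => ψ i j = c i)).card : ℝ)) := by
        apply sum_le_sum
        intro c hc
        rw [hI, mem_filter, Fintype.mem_piFinset] at hc
        apply Finset.prod_le_prod
        · intro i _
          exact mul_nonneg measureReal_nonneg (Nat.cast_nonneg _)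
        · intro i _
          exact hcell i (c i) (mem_range.1 (hc.1 i))
    _ = 2 ^ r * ((∑ c ∈ I, (Fintype.piFinset (fun i => (range (n i)).filter (fun j => ψ i j = c i))).card : ℕ) : ℝ) := by
        push_cast
        rw [mul_sum]
        apply sum_congr rfl
        intro c _
        rw [prod_mul_distrib, prod_const, card_univ, Fintype.card_fin, Fintype.card_piFinset]
        push_cast
        rfl
    _ = _ := by
        congr 2
        rw [card_eq_sum_card_fiberwise (f := fun (j : Fin r → ℕ) i => ψ i (j i))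
          (s := (Fintype.piFinset (fun i => range (n i))).filter (fun j => ∃ x ∈ B, ∀ i, x i ∈ cell (D i) (ψ i (j i)))) (t := I)]
        · apply sum_congr rfl
          intro c hc
          congr 1
          rw [hI, mem_filter] at hc
          ext j
          simp only [mem_filter, Fintype.mem_piFinset, mem_range]
          constructor
          · intro h
            have e : (fun i => ψ i (j i)) = c := by
              funext i
              exact (h i).2
            refine ⟨⟨fun i => (h i).1, ?_⟩, e⟩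
            obtain ⟨x, hx, hxc⟩ := hc.2
            refine ⟨x, hx, fun i => ?_⟩
            rw [(h i).2]
            exact hxc i
          · rintro ⟨⟨a, _⟩, b⟩ i
            exact ⟨a i, congrFun b i⟩
        · intro j hj
          rw [mem_coe, mem_filter, Fintype.mem_piFinset] at hj
          rw [mem_coe, hI, mem_filter, Fintype.mem_piFinset]
          exact ⟨fun i => mem_range.2 (hψ i _ (mem_range.1 (hj.1 i))), hj.2⟩

open Classical in
/-- **All integer vectors near the multiples of almost all points.** -/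
theorem near_decay (r : ℕ) (C δ : Fin r → ℝ) (hδ : ∀ i, 0 < δ i) (T W U : ℕ) (hT : 1 ≤ T) :
    ∃ (q : Fin r → ℕ) (C₀ : Fin r → ℝ) (F W' U' : ℕ), (∀ i, 1 ≤ q i) ∧ (∀ i, 0 < C₀ i) ∧ U ≤ U' ∧
    ∃ N₁ : ℕ, ∀ N : ℕ, N₁ ≤ N → ∀ P : (Fin r → ℕ) → Prop,
    (∀ (Ω : Fin r → Finset ℕ) (p : Fin r → ℕ → ℝ), (∀ i, NL (q i) (C₀ i) F T W' N (Ω i) (p i)) → (∀ i, ∀ v ∈ Ω i, 0 ≤ p i v) →
      ∑ m ∈ Fintype.piFinset Ω, (if P m then ∏ i, p i (m i) else 0) ≤ 1 / Real.log N ^ U') →
    ∀ (ν : Fin r → Measure ℝ) [∀ i, IsProbabilityMeasure (ν i)], (∀ i, ν i (Set.Icc (0 : ℝ) T)ᶜ = 0) →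
      (∀ i, Decay (ν i) (C i) (δ i)) →
      (Measure.pi ν).real {x | ∃ a : Fin r → ℕ, (∀ i, |(a i : ℝ) - N * x i| ≤ Real.log N ^ W) ∧ P a} ≤ 1 / Real.log N ^ U := by
  choose q C₀ hq hC₀ hmo using fun i => mo_decay (C i) (δ i) (hδ i)
  obtain ⟨F, W', U', hUU, N₁, hgen⟩ := Pool.Agent.HP25.NI.near_gen r q C₀ T (W + 1) (U + 1) hT
  obtain ⟨N₂, hN₂⟩ := exists_nat_ge (Real.exp (2 ^ r + 2))
  refine ⟨q, C₀, F, W', U', hq, hC₀, by omega, N₁ + N₂ + 1, fun N hN P hP ν _ hν hdec => ?_⟩
  have hN1 : (1 : ℝ) ≤ N := by exact_mod_cast (by omega : 1 ≤ N)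
  choose n D ψ hn hD hDl hψ hcell hMo using fun i => hmo i T (ν i) (hν i) (hdec i) (N : ℝ) hN1
  simp only [Nat.floor_natCast] at hMo
  obtain ⟨L, hL⟩ : ∃ L, L = Real.log N := ⟨_, rfl⟩
  have hLbig : 2 ^ r + 2 ≤ L := by
    rw [hL, Real.le_log_iff_exp_le (by linarith)]
    exact hN₂.trans (by exact_mod_cast (by omega : N₂ ≤ N))
  have h2r : (0 : ℝ) < 2 ^ r := by positivity
  have hL2 : 2 ≤ L := by linarith
  obtain ⟨B, hB⟩ : ∃ B, B = {x : Fin r → ℝ | ∃ a : Fin r → ℕ, (∀ i, |(a i : ℝ) - N * x i| ≤ Real.log N ^ W) ∧ P a} := ⟨_, rfl⟩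
  rw [← hB]
  have hbc := bad_cells_pi r ν T D n ψ hν hD hψ hcell B
  have hg := hgen N (by omega) P hP (fun _ => N) (fun i => range (n i)) (fun i j => (N : ℝ) * ((ψ i j : ℝ) / D i))
    (fun i => ⟨Nat.le_mul_of_pos_left _ hT, Nat.le_mul_of_pos_left _ hT⟩) (fun i => by rw [card_range]; exact hn i)
    (fun i => hMo i) (fun i j hj => by
      have hD0 : (0 : ℝ) < D i := by exact_mod_cast hD i
      have h4 : (ψ i j : ℝ) / D i ≤ T := by
        rw [div_le_iff₀ hD0]
        have : ψ i j ≤ T * D i := by have := hψ i j (mem_range.1 hj); omega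
        exact_mod_cast this
      have h5 : 0 ≤ (ψ i j : ℝ) / D i := by positivity
      refine ⟨?_, ?_⟩
      · have h6 : 0 ≤ (N : ℝ) * ((ψ i j : ℝ) / D i) := by positivity
        rw [← hL]
        have h7 : (0 : ℝ) ≤ L ^ (W + 1) := by positivity
        linarith
      · nlinarith)
  have hcard : (((Fintype.piFinset (fun i => range (n i))).filter (fun j => ∃ x ∈ B, ∀ i, x i ∈ cell (D i) (ψ i (j i)))).card : ℝ) ≤
      (∏ i, (n i : ℝ)) / L ^ (U + 1) := by
    have e1 : ((Fintype.piFinset (fun i => range (n i))).card : ℝ) = ∏ i, (n i : ℝ) := by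
      rw [Fintype.card_piFinset]
      push_cast
      simp only [card_range]
    rw [e1, ← hL] at hg
    refine le_trans (Nat.cast_le.2 (card_le_card ?_)) hg
    intro j hj
    rw [mem_filter] at hj ⊢
    refine ⟨hj.1, ?_⟩
    obtain ⟨x, hxB, hx⟩ := hj.2
    rw [hB] at hxB
    obtain ⟨a, ha, hPa⟩ := hxB
    refine ⟨a, fun i => ?_, hPa⟩
    have h1 := ha i
    have h2 := cell_close (D i) (ψ i (j i)) (x i) (N : ℝ) (by linarith) (hDl i) (hx i)
    have h3 : (a i : ℝ) - N * ((ψ i (j i) : ℝ) / D i) = ((a i : ℝ) - N * x i) + (N * x i - N * ((ψ i (j i) : ℝ) / D i)) := by ring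
    rw [h3]
    refine (abs_add_le _ _).trans ?_
    rw [← hL] at h1
    have h4 : (1 : ℝ) ≤ L ^ W := one_le_pow₀ (by linarith)
    rw [pow_succ]
    nlinarith
  have hP0 : (0 : ℝ) < ∏ i, (n i : ℝ) := prod_pos fun i _ => by exact_mod_cast hn i
  have h9 : (Measure.pi ν).real B * ∏ i, (n i : ℝ) ≤ (2 ^ r / L ^ (U + 1)) * ∏ i, (n i : ℝ) := by
    refine hbc.trans ((mul_le_mul_of_nonneg_left hcard h2r.le).trans (le_of_eq ?_))
    ring
  have h10 := le_of_mul_le_mul_right h9 hP0
  refine h10.trans ?_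
  rw [← hL, div_le_div_iff₀ (by positivity) (by positivity), pow_succ]
  have h11 : 0 < L ^ U := by positivity
  nlinarith

end Pool.Agent.HP25.FD
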